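import Pool.Agent.Y515.Z8.Fix4

/-!
# Project Z8, part CNT: the number of the coprime pairs with given small prime factors of the forms
-/

set_option autoImplicit false

namespace Pool.Agent.Y515.Z8

open Finset Pool.Agent.W262.RK Pool.Agent.W307.RT Pool.Agent.TH841.PT Pool.Agent.Y723.Z8

/-- the sum over the second coordinate -/
lemma sum_w (f : ℕ → ℝ) (hf : ∀ n, 0 ≤ f n) (M : ℕ) :
    ∑ w ∈ (Icc (-(M : ℤ)) M).filter (fun w => w ≠ 0), f w.natAbs ≤ 2 * ∑ n ∈ Icc 1 M, f n := by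
  set A := (Icc 1 M).image (fun n : ℕ => (n : ℤ)) with hA
  set B := (Icc 1 M).image (fun n : ℕ => -(n : ℤ)) with hB
  have h1 : (Icc (-(M : ℤ)) M).filter (fun w => w ≠ 0) ⊆ A ∪ B := by
    intro w hw
    rw [mem_filter, mem_Icc] at hw
    rw [mem_union, hA, hB, mem_image, mem_image]
    rcases lt_or_gt_of_ne hw.2 with h | h
    · right
      refine ⟨w.natAbs, ?_, by omega⟩
      rw [mem_Icc]
      omega
    · left
      refine ⟨w.natAbs, ?_, by omega⟩
      rw [mem_Icc]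
      omega
  have h2 : ∑ w ∈ A ∪ B, f w.natAbs ≤ ∑ w ∈ A, f w.natAbs + ∑ w ∈ B, f w.natAbs := by
    rw [← sum_union_inter]
    have : 0 ≤ ∑ w ∈ A ∩ B, f w.natAbs := sum_nonneg fun w _ => hf _
    linarith
  have h3 : ∑ w ∈ A, f w.natAbs = ∑ n ∈ Icc 1 M, f n := by
    rw [hA, sum_image (fun a _ b _ hab => by simpa using hab)]
    simp
  have h4 : ∑ w ∈ B, f w.natAbs = ∑ n ∈ Icc 1 M, f n := by
    rw [hB, sum_image (fun a _ b _ hab => by simpa using hab)]
    simp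
  have h5 := sum_le_sum_of_subset_of_nonneg h1 (f := fun w => f w.natAbs) (fun w _ _ => hf _)
  linarith

section

variable {z y Y : ℕ} {s v u : J8 → ℕ}

/-- the pairs `(1, 2)` and `(-1, -2)` -/
lemma small {a b : ℤ} (hz : 22 ≤ z) (hzy : z < y) (hs : s ∈ Tup J8 z y) (hv : v ∈ Tup J8 z y)
    (hu : u ∈ Tup J8 y Y) (g : G8 z y s v u a b)
    (hab : (a = 1 ∧ b = 2) ∨ (a = -1 ∧ b = -2)) :
    (∀ i, s i = 1) ∧ (∀ i, v i = 1) ∧ ∀ i, u i = 1 := by
  have hs' := (Pool.Agent.W372.RK2.mem_Tup'.1 hs).1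
  have hv' := (Pool.Agent.W372.RK2.mem_Tup'.1 hv).1
  have hu' := (Pool.Agent.W372.RK2.mem_Tup'.1 hu).1
  have hF : ∀ j, (F8 a b j).natAbs ≤ 7 := by
    intro j
    rcases hab with ⟨rfl, rfl⟩ | ⟨rfl, rfl⟩ <;> fin_cases j <;> simp [F8]
  have hno : ∀ p : ℕ, z < p → ∀ j, ¬ (p : ℤ) ∣ F8 a b j := by
    intro p hp j hd
    have h1 := Nat.le_of_dvd (Int.natAbs_pos.2 (g.ne j)) (Int.natCast_dvd.1 hd)
    have h2 := hF j
    omega
  refine ⟨fun i => ?_, fun i => ?_, fun i => ?_⟩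
  · rw [Nat.eq_one_iff_not_exists_prime_dvd]
    intro p hp hpd
    have f := g.fs hp hpd
    exact hno p (mem_PS.1 f.1).1.1 _ f.2.1
  · rw [Nat.eq_one_iff_not_exists_prime_dvd]
    intro p hp hpd
    have f := g.fv hp hpd
    exact hno p (mem_PS.1 f.1).1.1 _ ((dvd_pow_self (p : ℤ) two_ne_zero).trans f.2.1)
  · rw [Nat.eq_one_iff_not_exists_prime_dvd]
    intro p hp hpd
    have f := g.fu hzy hu hp hpd
    exact hno p (hzy.trans f.1) _ f.2.1

end

/-- the weight of the tuples -/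
noncomputable def RW (s v u : J8 → ℕ) : ℝ :=
  (∏ i, gp (rr8 i) 10 (s i)) * (∏ i, gp (rr8 i) 10 (v i) / v i) *
        (∏ i, 2 ^ (u i).primeFactors.card / (u i : ℝ))

lemma RW_nonneg {z y Y : ℕ} (hz : 22 ≤ z) {s v u : J8 → ℕ} (hs : ∀ i, s i ∈ (PP z y).divisors)
    (hv : ∀ i, v i ∈ (PP z y).divisors) (hu : ∀ i, u i ∈ (PP y Y).divisors) : 0 ≤ RW s v u := by
  unfold RW
  refine mul_nonneg (mul_nonneg (prod_nonneg fun i _ => gp_nonneg8 hz i (hs i))
    (prod_nonneg fun i _ => div_nonneg (gp_nonneg8 hz i (hv i)) (Nat.cast_nonneg _)))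
    (prod_nonneg fun i _ => div_nonneg (pow_nonneg zero_le_two _) (Nat.cast_nonneg _))

lemma RW_one {s v u : J8 → ℕ} (hs : ∀ i, s i = 1) (hv : ∀ i, v i = 1) (hu : ∀ i, u i = 1) :
    RW s v u = 1 := by
  unfold RW gp
  simp [hs, hv, hu]

attribute [local irreducible] F8 pr8 ty8 RW

/-- CNT -/
theorem cnt_of (h : S_CHR) : S_CNT := by
  classical
  refine ⟨22, fun z hz => ?_⟩
  obtain ⟨C, K, y0, hC, hK, hfix⟩ := fix_le h z hz
  obtain ⟨CA, hCA, hav⟩ := Pool.Agent.W216.RT.AVH.avh 10 z (by omega)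
  refine ⟨C * 3 * (2 * (CA * 3)) + 2, K + 4, y0, by positivity, by omega, ?_⟩
  intro X y Y hy0 hzy hX s hs v hv u hu hsvu
  have hs' := (Pool.Agent.W372.RK2.mem_Tup'.1 hs).1
  have hv' := (Pool.Agent.W372.RK2.mem_Tup'.1 hv).1
  have hu' := (Pool.Agent.W372.RK2.mem_Tup'.1 hu).1
  have hy1 : 1 ≤ y := by omega
  have hX1 : 1 ≤ X := le_trans (Nat.one_le_pow _ _ hy1) hX
  have hR := RW_nonneg (Y := Y) hz hs' hv' hu'
  have hyr : (3 : ℝ) ≤ y := by exact_mod_cast (by omega : 3 ≤ y)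
  have hl1 : 1 < Real.log y := by
    rw [Real.lt_log_iff_exp_lt (by linarith)]
    have := Real.exp_one_lt_d9
    linarith
  have hL : 0 < (Real.log y) ^ 7 := by positivity
  set X' : ℕ := 2 * X + 1 with hX'
  set N : ℤ := (X : ℤ) + 1 with hN
  set L := (Real.log y) ^ 7 with hLdef
  set R := RW s v u with hRdef
  set T := (Box X).filter (fun t : ℤ × ℤ => IsCoprime t.1 t.2 ∧ (∀ j, F8 t.1 t.2 j ≠ 0) ∧
      S1 z y (pr8 z t.1 t.2) = s ∧ S2 z y (pr8 z t.1 t.2) = v ∧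
      ∀ i, (u i : ℤ) ∣ pr8 z t.1 t.2 i) with hT
  have hTG : ∀ t ∈ T, (t.1.natAbs ≤ X ∧ t.2.natAbs ≤ X) ∧ G8 z y s v u t.1 t.2 := by
    intro t ht
    rw [hT, mem_filter, mem_Box] at ht
    exact ⟨ht.1, ⟨ht.2.1, ht.2.2.1, ht.2.2.2.1, ht.2.2.2.2.1, ht.2.2.2.2.2⟩⟩
  -- the bound for a fixed second variable
  have hfib : ∀ w ∈ (Icc (-((3 * X : ℕ) : ℤ)) ((3 * X : ℕ) : ℤ)).filter (fun w => w ≠ 0),
      ((T.filter (fun t : ℤ × ℤ => t.2 - 2 * t.1 = w)).card : ℝ) ≤
      (C * (3 * X) * R / L) * (fun n : ℕ => ∏ p ∈ n.primeFactors.filter (fun p => z < p),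
        (p : ℝ) / ((p : ℝ) - ((10 : ℕ) : ℝ))) w.natAbs := by
    intro w hw
    have hw0 : w ≠ 0 := (mem_filter.1 hw).2
    have h1 := hfix X' y Y hy0 hzy
      ((Nat.pow_le_pow_right hy1 (by omega)).trans (hX.trans (by omega))) s hs v hv u hu
      (hsvu.trans (by omega)) w N hw0
    have h2 : (T.filter (fun t : ℤ × ℤ => t.2 - 2 * t.1 = w)).card ≤
        ((Icc 1 X').filter (fun t : ℕ =>
          G8 z y s v u ((t : ℤ) - N) (w + 2 * ((t : ℤ) - N)))).card := by
      apply card_le_card_of_injOn (fun t : ℤ × ℤ => (t.1 + N).toNat)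
      · intro t ht
        have ht' := mem_filter.1 (mem_coe.1 ht)
        obtain ⟨⟨b1, b2⟩, g⟩ := hTG t ht'.1
        have e : (((t.1 + N).toNat : ℕ) : ℤ) = t.1 + N := Int.toNat_of_nonneg (by omega)
        have e0 : 1 ≤ (t.1 + N).toNat ∧ (t.1 + N).toNat ≤ X' := by
          rw [hN, hX']
          constructor <;> omega
        rw [mem_coe, mem_filter, mem_Icc, e]
        refine ⟨e0, ?_⟩
        have e2 : t.1 + N - N = t.1 := by ring
        have e3 : w + 2 * t.1 = t.2 := by rw [← ht'.2]; ring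
        rw [e2, e3]
        exact g
      · intro a ha b hb hab
        have ha' := mem_filter.1 (mem_coe.1 ha)
        have hb' := mem_filter.1 (mem_coe.1 hb)
        have ba := (hTG a ha'.1).1
        have bb := (hTG b hb'.1).1
        simp only at hab
        have e1 : a.1 = b.1 := by omega
        refine Prod.ext e1 ?_
        have := ha'.2
        have := hb'.2
        omega
    refine (Nat.cast_le.2 h2).trans (h1.trans ?_)
    have e4 : C * (X' : ℝ) * (∏ i, gp (rr8 i) 10 (s i)) * (∏ i, gp (rr8 i) 10 (v i) / v i) *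
        (∏ i, 2 ^ (u i).primeFactors.card / (u i : ℝ)) = C * X' * R := by
      rw [hRdef]
      unfold RW
      ring
    rw [e4]
    apply mul_le_mul
    · apply div_le_div_of_nonneg_right _ hL.le
      apply mul_le_mul_of_nonneg_right _ hR
      apply mul_le_mul_of_nonneg_left _ hC
      have : X' ≤ 3 * X := by omega
      exact_mod_cast this
    · push_cast
      exact le_rfl
    · refine prod_nonneg fun p hp => ?_
      have : (10 : ℝ) < p := by exact_mod_cast (by have := (mem_filter.1 hp).2; omega : 10 < p)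
      exact div_nonneg (Nat.cast_nonneg _) (by linarith)
    · exact div_nonneg (mul_nonneg (mul_nonneg hC (by positivity)) hR) hL.le
  -- the part with `w = 0`
  have hzero : ((T.filter (fun t : ℤ × ℤ => t.2 - 2 * t.1 = 0)).card : ℝ) ≤ 2 * X ^ 2 * R / L := by
    have hsub : T.filter (fun t : ℤ × ℤ => t.2 - 2 * t.1 = 0) ⊆ {(1, 2), (-1, -2)} := by
      intro t ht
      have ht' := mem_filter.1 ht
      have g := (hTG t ht'.1).2
      obtain ⟨a, b⟩ := t
      simp only at ht' g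
      have hb : b = 2 * a := by omega
      have h1 := g.cop
      rw [hb] at h1
      have h2 : IsUnit a := h1.isUnit_of_dvd' (dvd_refl a) (Dvd.intro_left 2 rfl)
      rw [Int.isUnit_iff] at h2
      rw [mem_insert, mem_singleton]
      rcases h2 with h2 | h2
      · left
        rw [hb, h2]
        norm_num
      · right
        rw [hb, h2]
        norm_num
    rcases (T.filter (fun t : ℤ × ℤ => t.2 - 2 * t.1 = 0)).eq_empty_or_nonempty with he | ⟨t, ht⟩
    · rw [he, card_empty, Nat.cast_zero]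
      exact div_nonneg (mul_nonneg (by positivity) hR) hL.le
    · have ht1 := hsub ht
      have g := (hTG t (mem_filter.1 ht).1).2
      rw [mem_insert, mem_singleton] at ht1
      have h3 : (t.1 = 1 ∧ t.2 = 2) ∨ (t.1 = -1 ∧ t.2 = -2) := by
        rcases ht1 with h | h
        · left; rw [h]; exact ⟨rfl, rfl⟩
        · right; rw [h]; exact ⟨rfl, rfl⟩
      obtain ⟨q1, q2, q3⟩ := small hz hzy hs hv hu g h3
      have hR1 : R = 1 := RW_one q1 q2 q3
      have hc : (T.filter (fun t : ℤ × ℤ => t.2 - 2 * t.1 = 0)).card ≤ 2 :=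
        (card_le_card hsub).trans (card_le_two)
      have hc' : ((T.filter (fun t : ℤ × ℤ => t.2 - 2 * t.1 = 0)).card : ℝ) ≤ 2 := by
        exact_mod_cast hc
      refine hc'.trans ?_
      rw [hR1, mul_one, le_div_iff₀ hL]
      have h4 : L ≤ (X : ℝ) ^ 2 := by
        have h5 : Real.log y ≤ y := (Real.log_le_sub_one_of_pos (by linarith)).trans (by linarith)
        have h6 : L ≤ (y : ℝ) ^ 7 := pow_le_pow_left₀ (by linarith) h5 7
        have h7 : (y : ℝ) ^ 7 ≤ (y : ℝ) ^ 8 := pow_le_pow_right₀ (by linarith) (by norm_num)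
        have h8 : y ^ 4 ≤ X := (Nat.pow_le_pow_right hy1 (by omega)).trans hX
        have h9 : (y : ℝ) ^ 4 ≤ X := by exact_mod_cast h8
        have h10 : ((y : ℝ) ^ 4) ^ 2 ≤ (X : ℝ) ^ 2 := pow_le_pow_left₀ (by positivity) h9 2
        calc L ≤ (y : ℝ) ^ 7 := h6
          _ ≤ (y : ℝ) ^ 8 := h7
          _ = ((y : ℝ) ^ 4) ^ 2 := by ring
          _ ≤ _ := h10
      linarith
  -- the sum
  have hsplit : (T.card : ℝ) ≤
      ∑ w ∈ (Icc (-((3 * X : ℕ) : ℤ)) ((3 * X : ℕ) : ℤ)).filter (fun w => w ≠ 0),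
        ((T.filter (fun t : ℤ × ℤ => t.2 - 2 * t.1 = w)).card : ℝ) +
      ((T.filter (fun t : ℤ × ℤ => t.2 - 2 * t.1 = 0)).card : ℝ) := by
    have h1 : T.card = ∑ w ∈ Icc (-((3 * X : ℕ) : ℤ)) ((3 * X : ℕ) : ℤ),
        (T.filter (fun t : ℤ × ℤ => t.2 - 2 * t.1 = w)).card := by
      apply card_eq_sum_card_fiberwise (f := fun t : ℤ × ℤ => t.2 - 2 * t.1)
      intro t ht
      have b := (hTG t (mem_coe.1 ht)).1
      rw [mem_coe, mem_Icc]
      push_cast
      constructor <;> omega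
    rw [h1, Nat.cast_sum, ← sum_filter_add_sum_filter_not _ (fun w : ℤ => w ≠ 0)]
    apply add_le_add le_rfl
    have h2 : (Icc (-((3 * X : ℕ) : ℤ)) ((3 * X : ℕ) : ℤ)).filter (fun w => ¬ w ≠ 0) ⊆ {0} := by
      intro w hw
      rw [mem_filter, not_not] at hw
      rw [mem_singleton]
      exact hw.2
    refine (sum_le_sum_of_subset_of_nonneg h2 (fun _ _ _ => Nat.cast_nonneg _)).trans ?_
    rw [sum_singleton]
  have hg0 : ∀ n : ℕ, 0 ≤ ∏ p ∈ n.primeFactors.filter (fun p => z < p),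
        (p : ℝ) / ((p : ℝ) - ((10 : ℕ) : ℝ)) := by
    intro n
    refine prod_nonneg fun p hp => ?_
    have : (10 : ℝ) < p := by exact_mod_cast (by have := (mem_filter.1 hp).2; omega : 10 < p)
    push_cast
    exact div_nonneg (Nat.cast_nonneg _) (by linarith)
  have hsum : ∑ w ∈ (Icc (-((3 * X : ℕ) : ℤ)) ((3 * X : ℕ) : ℤ)).filter (fun w => w ≠ 0),
        ((T.filter (fun t : ℤ × ℤ => t.2 - 2 * t.1 = w)).card : ℝ) ≤
      (C * (3 * X) * R / L) * (2 * (CA * (3 * X))) := by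
    refine (sum_le_sum hfib).trans ?_
    rw [← mul_sum]
    apply mul_le_mul_of_nonneg_left _
      (div_nonneg (mul_nonneg (mul_nonneg hC (by positivity)) hR) hL.le)
    refine (sum_w _ hg0 (3 * X)).trans ?_
    apply mul_le_mul_of_nonneg_left _ zero_le_two
    have := hav (3 * X)
    push_cast at this ⊢
    exact this
  have hgoal : (T.card : ℝ) ≤ (C * 3 * (2 * (CA * 3)) + 2) * X ^ 2 * R / L := by
    have e : (C * 3 * (2 * (CA * 3)) + 2) * X ^ 2 * R / L =
        (C * (3 * X) * R / L) * (2 * (CA * (3 * X))) + 2 * X ^ 2 * R / L := by ring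
    rw [e]
    linarith
  have e5 : (C * 3 * (2 * (CA * 3)) + 2) * (X : ℝ) ^ 2 * (∏ i, gp (rr8 i) 10 (s i)) *
      (∏ i, gp (rr8 i) 10 (v i) / v i) * (∏ i, 2 ^ (u i).primeFactors.card / (u i : ℝ)) =
      (C * 3 * (2 * (CA * 3)) + 2) * X ^ 2 * R := by
    rw [hRdef]
    unfold RW
    ring
  rw [e5]
  convert hgoal using 2

end Pool.Agent.Y515.Z8
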