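import Pool.Agent.Y515.Z8.Mer
import Pool.Agent.TH841.PT.SVP
import Pool.Agent.TH841.PT.CNTP
import Pool.Agent.W29.RT.CNT2
import Pool.Agent.W216.RT.AVH

/-!
# Project Z8, part CNT: the count on a line
-/

set_option autoImplicit false

namespace Pool.Agent.Y515.Z8

open Finset Pool.Agent.W262.RK Pool.Agent.W307.RT Pool.Agent.TH841.PT Pool.Agent.Y723.Z8
open Pool.Agent.W372.RK2 (sq_pow_dvd)
open Pool.Agent.W29.RT (dvd_S1 dvd_S2)

/-- the index set -/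
abbrev J8 : Type := Fin 7 × Bool

lemma pr8_pow {z : ℕ} {a b : ℤ} (h0 : ∀ j, F8 a b j ≠ 0) (i : J8) {p : ℕ} (hp : p.Prime)
    (hz : z < p) {k : ℕ} (hk : k ≠ 0) : (p : ℤ) ^ k ∣ pr8 z a b i ↔
      (p : ℤ) ^ k ∣ F8 a b i.1 ∧ ty8 i.1 p = i.2 := by
  have h1 : ∀ x : ℤ, (p : ℤ) ^ k ∣ x ↔ p ^ k ∣ x.natAbs := by
    intro x
    rw [← Int.natCast_dvd]
    push_cast
    rfl
  unfold pr8
  rw [h1, h1, Int.natAbs_natCast]
  by_cases hty : ty8 i.1 p = i.2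
  · rw [partN_pow (Int.natAbs_ne_zero.2 (h0 _)) hp ⟨hz, hty⟩]
    simp [hty]
  · constructor
    · intro h2
      exact absurd (partN_of hp ((dvd_pow_self p hk).trans h2)).2 hty
    · intro h2
      exact absurd h2.2 hty

/-- the facts about the counted pairs -/
structure G8 (z y : ℕ) (s v u : J8 → ℕ) (a b : ℤ) : Prop where
  cop : IsCoprime a b
  ne : ∀ j, F8 a b j ≠ 0
  hs : S1 z y (pr8 z a b) = s
  hv : S2 z y (pr8 z a b) = v
  hu : ∀ i, (u i : ℤ) ∣ pr8 z a b i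

section

variable {z y Y : ℕ} {s v u : J8 → ℕ} {a b a' b' w : ℤ}

lemma G8.fs (g : G8 z y s v u a b) {p : ℕ} (hp : p.Prime) {i : J8} (h : p ∣ s i) :
    p ∈ PS z y ∧ (p : ℤ) ∣ F8 a b i.1 ∧ ¬ (p : ℤ) ^ 2 ∣ F8 a b i.1 ∧ ty8 i.1 p = i.2 := by
  rw [← g.hs] at h
  obtain ⟨h1, h2, h3⟩ := (dvd_S1 hp).1 h
  have hz := (mem_PS.1 h1).1.1
  have h4 := (pr8_pow g.ne i hp hz (k := 1) one_ne_zero).1 (by rwa [pow_one])
  rw [pow_one] at h4
  rw [pr8_pow g.ne i hp hz two_ne_zero] at h3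
  exact ⟨h1, h4.1, fun h5 => h3 ⟨h5, h4.2⟩, h4.2⟩

lemma G8.fv (g : G8 z y s v u a b) {p : ℕ} (hp : p.Prime) {i : J8} (h : p ∣ v i) :
    p ∈ PS z y ∧ (p : ℤ) ^ 2 ∣ F8 a b i.1 ∧ ty8 i.1 p = i.2 := by
  rw [← g.hv] at h
  obtain ⟨h1, h3⟩ := (dvd_S2 hp).1 h
  have hz := (mem_PS.1 h1).1.1
  rw [pr8_pow g.ne i hp hz two_ne_zero] at h3
  exact ⟨h1, h3.1, h3.2⟩

lemma G8.fu (g : G8 z y s v u a b) (hzy : z < y) (hu : u ∈ Tup J8 y Y) {p : ℕ} (hp : p.Prime)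
    {i : J8} (h : p ∣ u i) : y < p ∧ (p : ℤ) ∣ F8 a b i.1 ∧ ty8 i.1 p = i.2 := by
  have h1 := (dv_prime ((Pool.Agent.W372.RK2.mem_Tup'.1 hu).1 i) hp h).1
  have h2 : (p : ℤ) ∣ pr8 z a b i := (Int.natCast_dvd_natCast.2 h).trans (g.hu i)
  have h4 := (pr8_pow g.ne i hp (hzy.trans h1) (k := 1) one_ne_zero).1 (by rwa [pow_one])
  rw [pow_one] at h4
  exact ⟨h1, h4⟩

lemma G8.fm (g : G8 z y s v u a b) (hzy : z < y) (hu : u ∈ Tup J8 y Y) {p : ℕ} (hp : p.Prime)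
    {i : J8} (h : p ∣ s i * v i ^ 2 * u i) :
    z < p ∧ (p : ℤ) ∣ F8 a b i.1 ∧ ty8 i.1 p = i.2 := by
  rcases hp.dvd_mul.1 h with h | h
  · rcases hp.dvd_mul.1 h with h | h
    · have h' := g.fs hp h
      exact ⟨(mem_PS.1 h'.1).1.1, h'.2.1, h'.2.2.2⟩
    · have h' := g.fv hp (hp.dvd_of_dvd_pow h)
      exact ⟨(mem_PS.1 h'.1).1.1, (dvd_pow_self (p : ℤ) two_ne_zero).trans h'.2.1, h'.2.2⟩
  · have h' := g.fu hzy hu hp h
    exact ⟨hzy.trans h'.1, h'.2⟩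

lemma G8.un (g : G8 z y s v u a b) (hz : 7 ≤ z) (hzy : z < y) (hu : u ∈ Tup J8 y Y) {p : ℕ}
    (hp : p.Prime) {i l : J8} (h : p ∣ s i * v i ^ 2 * u i) (h' : p ∣ s l * v l ^ 2 * u l) :
    i = l := by
  obtain ⟨h1, h2, h3⟩ := g.fm hzy hu hp h
  obtain ⟨_, h5, h6⟩ := g.fm hzy hu hp h'
  have h7 := un_int hp (by omega) g.cop h2 h5
  refine Prod.ext h7 ?_
  rw [← h3, ← h6, h7]

/-- the congruence of the values -/
lemma F8_congr {p : ℕ} (h : (p : ℤ) ∣ a - a') (j : Fin 7) :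
    (p : ℤ) ∣ F8 a (w + 2 * a) j ↔ (p : ℤ) ∣ F8 a' (w + 2 * a') j := by
  rw [dvd_F8_iff, dvd_F8_iff]
  have h1 : (a : ZMod p) = (a' : ZMod p) := by
    rw [ZMod.intCast_eq_intCast_iff_dvd_sub]
    rw [← dvd_neg, neg_sub]
    exact h
  rw [h1]

/-- Hensel: a simple root lifts uniquely -/
lemma hensel {p : ℕ} (hp : p.Prime) (h7 : 7 < p) (hw : ¬ (p : ℤ) ∣ w) {j : Fin 7}
    (h1 : (p : ℤ) ∣ a - a') (h2 : (p : ℤ) ^ 2 ∣ F8 a (w + 2 * a) j)
    (h3 : (p : ℤ) ^ 2 ∣ F8 a' (w + 2 * a') j) : (p : ℤ) ^ 2 ∣ a - a' := by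
  have hpI : Prime (p : ℤ) := Nat.prime_iff_prime_int.1 hp
  have hsm : ∀ n : ℕ, 0 < n → n ≤ 7 → ¬ (p : ℤ) ∣ (n : ℤ) := by
    intro n hn hn7 h
    have := Nat.le_of_dvd hn (Int.natCast_dvd_natCast.1 h)
    omega
  have n2 : ¬ (p : ℤ) ∣ 2 := hsm 2 (by norm_num) (by norm_num)
  have n3 : ¬ (p : ℤ) ∣ 3 := hsm 3 (by norm_num) (by norm_num)
  have hF : (p : ℤ) ∣ F8 a (w + 2 * a) j := (dvd_pow_self (p : ℤ) two_ne_zero).trans h2
  -- it is enough to write the difference as a product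
  have main : ∀ q : ℤ, F8 a (w + 2 * a) j - F8 a' (w + 2 * a') j = q * (a - a') →
      ¬ (p : ℤ) ∣ q → (p : ℤ) ^ 2 ∣ a - a' := by
    intro q hq hpq
    have h5 : (p : ℤ) ^ 2 ∣ q * (a - a') := by
      rw [← hq]
      exact dvd_sub h2 h3
    have hcop : IsCoprime ((p : ℤ) ^ 2) q := by
      apply IsCoprime.pow_left
      rw [hpI.coprime_iff_not_dvd]
      exact hpq
    exact hcop.dvd_of_dvd_mul_left h5
  have hw2 : ¬ (p : ℤ) ∣ w ^ 2 := fun h => hw (hpI.dvd_of_dvd_pow h)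
  fin_cases j
  · refine main 1 (by simp [F8]) (fun h => ?_)
    exact hpI.not_dvd_one h
  · exact main 2 (by simp [F8]; ring) n2
  · refine main (-1) (by simp [F8]; ring) (fun h => ?_)
    exact hpI.not_dvd_one ((dvd_neg.1 h))
  · exact main 3 (by simp [F8]; ring) n3
  · refine main (5 * (a + a') + 4 * w) (by simp [F8]; ring) (fun h => ?_)
    simp [F8] at hF
    have e1 : (p : ℤ) ∣ 2 * (5 * a + 2 * w) := by
      have : 2 * (5 * a + 2 * w) = (5 * (a + a') + 4 * w) + 5 * (a - a') := by ring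
      rw [this]
      exact dvd_add h (h1.mul_left 5)
    have e2 := (hpI.dvd_or_dvd e1).resolve_left n2
    apply hw2
    have : w ^ 2 = 5 * (a ^ 2 + (w + 2 * a) ^ 2) - (5 * a + 2 * w) * (5 * a + 2 * w) := by ring
    rw [this]
    exact dvd_sub (hF.mul_left 5) (e2.mul_left _)
  · refine main (-7 * (a + a') - 6 * w) (by simp [F8]; ring) (fun h => ?_)
    simp [F8] at hF
    have e1 : (p : ℤ) ∣ 2 * (7 * a + 3 * w) := by
      have : 2 * (7 * a + 3 * w) = 7 * (a - a') - (-7 * (a + a') - 6 * w) := by ring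
      rw [this]
      exact dvd_sub (h1.mul_left 7) h
    have e2 := (hpI.dvd_or_dvd e1).resolve_left n2
    have e3 : (p : ℤ) ∣ 2 * w ^ 2 := by
      have : 2 * w ^ 2 = 7 * (a ^ 2 - 2 * a * (w + 2 * a) - (w + 2 * a) ^ 2) +
          (7 * a + 3 * w) * (7 * a + 3 * w) := by ring
      rw [this]
      exact dvd_add (hF.mul_left 7) (e2.mul_left _)
    exact hw2 ((hpI.dvd_or_dvd e3).resolve_left n2)
  · refine main ((a + a') - 2 * w) (by simp [F8]; ring) (fun h => ?_)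
    simp [F8] at hF
    have e1 : (p : ℤ) ∣ 2 * (a - w) := by
      have : 2 * (a - w) = ((a + a') - 2 * w) + (a - a') := by ring
      rw [this]
      exact dvd_add h h1
    have e2 := (hpI.dvd_or_dvd e1).resolve_left n2
    have e3 : (p : ℤ) ∣ 2 * w ^ 2 := by
      have : 2 * w ^ 2 = (a - w) * (a - w) -
          (a ^ 2 + 2 * a * (w + 2 * a) - (w + 2 * a) ^ 2) := by ring
      rw [this]
      exact dvd_sub (e2.mul_left _) hF
    exact hw2 ((hpI.dvd_or_dvd e3).resolve_left n2)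

/-- two counted numbers with the same residues are congruent -/
lemma cong8 (hz : 7 ≤ z) (hzy : z < y) (hs : s ∈ Tup J8 z y) (hv : v ∈ Tup J8 z y)
    (hu : u ∈ Tup J8 y Y) (g : G8 z y s v u a (w + 2 * a)) (g' : G8 z y s v u a' (w + 2 * a'))
    (h1 : ∀ i, ∀ p : ℕ, p.Prime → p ∣ s i → (p : ℤ) ∣ a - a')
    (h2 : ∀ i, ∀ p : ℕ, p.Prime → p ∣ v i → (p : ℤ) ∣ a - a')
    (h3 : ∀ i, ∀ p : ℕ, p.Prime → p ∣ u i → (p : ℤ) ∣ a - a') :
    ((∏ i, s i * v i ^ 2 * u i : ℕ) : ℤ) ∣ a - a' := by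
  have hs' := (Pool.Agent.W372.RK2.mem_Tup'.1 hs).1
  have hv' := (Pool.Agent.W372.RK2.mem_Tup'.1 hv).1
  have hu' := (Pool.Agent.W372.RK2.mem_Tup'.1 hu).1
  rw [Nat.cast_prod]
  apply Finset.prod_dvd_of_coprime
  · intro i _ l _ hil
    rw [Function.onFun, Nat.isCoprime_iff_coprime]
    apply Nat.coprime_of_dvd
    intro p hp hpi hpl
    exact hil (g.un hz hzy hu hp hpi hpl)
  intro i _
  have e1 : ((s i : ℕ) : ℤ) ∣ a - a' := by
    have h := sq_pow_dvd (dv_squarefree (hs' i)) 1 (a - a')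
      (fun p hp hpd => by
        rw [pow_one]
        exact h1 i p hp hpd)
    rwa [pow_one] at h
  have e2 : ((v i ^ 2 : ℕ) : ℤ) ∣ a - a' := by
    have h := sq_pow_dvd (dv_squarefree (hv' i)) 2 (a - a')
      (fun p hp hpd => by
        have f := g.fv hp hpd
        have f' := g'.fv hp hpd
        have hzp := (mem_PS.1 f.1).1.1
        exact hensel hp (by omega) (not_dvd_w hp (by omega) g.cop
          ((dvd_pow_self (p : ℤ) two_ne_zero).trans f.2.1)) (h2 i p hp hpd) f.2.1 f'.2.1)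
    exact_mod_cast h
  have e3 : ((u i : ℕ) : ℤ) ∣ a - a' := by
    have h := sq_pow_dvd (dv_squarefree (hu' i)) 1 (a - a')
      (fun p hp hpd => by
        rw [pow_one]
        exact h3 i p hp hpd)
    rwa [pow_one] at h
  have hcop1 : IsCoprime ((s i : ℕ) : ℤ) ((v i ^ 2 : ℕ) : ℤ) := by
    rw [Nat.isCoprime_iff_coprime]
    apply Nat.coprime_of_dvd
    intro p hp hps hpv
    exact (g.fs hp hps).2.2.1 (g.fv hp (hp.dvd_of_dvd_pow hpv)).2.1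
  have hcop2 : IsCoprime ((s i * v i ^ 2 : ℕ) : ℤ) ((u i : ℕ) : ℤ) := by
    rw [Nat.isCoprime_iff_coprime]
    apply Nat.coprime_of_dvd
    intro p hp hps hpu
    have h8 : y < p := (g.fu hzy hu hp hpu).1
    have h9 : p ≤ y := by
      rcases hp.dvd_mul.1 hps with h | h
      · exact (dv_prime (hs' i) hp h).2
      · exact (dv_prime (hv' i) hp (hp.dvd_of_dvd_pow h)).2
    omega
  rw [Nat.cast_mul]
  refine hcop2.mul_dvd ?_ e3
  rw [Nat.cast_mul]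
  exact hcop1.mul_dvd e1 e2

end

lemma nr_eq_rr8 {p : ℕ} (hp : p.Prime) (h2 : p ≠ 2) (i : J8) (h : ty8 i.1 p = i.2) :
    (nr i.1 p : ℝ) = rr8 i p := by
  obtain ⟨j, e⟩ := i
  have hodd := hp.eq_two_or_odd.resolve_left h2
  simp only at h
  subst h
  unfold nr rr8 ty8
  fin_cases j
  · simp
  · simp
  · simp
  · simp
  · simp
  · simp
    split_ifs <;> first | rfl | (exfalso; omega) | norm_num
  · simp
    split_ifs <;> first | rfl | (exfalso; omega) | norm_num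

lemma nr_le (j : Fin 7) (p : ℕ) : nr j p ≤ 2 := by
  unfold nr
  split_ifs <;> norm_num

lemma rr8_nonneg (i : J8) (p : ℕ) : 0 ≤ rr8 i p := by
  unfold rr8
  split_ifs <;> norm_num

end Pool.Agent.Y515.Z8
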