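import Pool.Agent.Y515.Z8.Fix

/-!
# Project Z8, part CNT: the count on a line, upper bound
-/

set_option autoImplicit false

namespace Pool.Agent.Y515.Z8

open Finset Pool.Agent.W262.RK Pool.Agent.W307.RT Pool.Agent.TH841.PT Pool.Agent.Y723.Z8
open Pool.Agent.TH841.PT.CNTPf (ra ra_congr exp_le_div mem_flt)
open Pool.Agent.TH841.PT.SVPf (svp)

/-- the residue classes -/
lemma ra_mem8 {w a : ℤ} {j : Fin 7} {p : ℕ} (hp : 0 < p) (h : (p : ℤ) ∣ F8 a (w + 2 * a) j) :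
    ra a p ∈ Rt w 0 j p := by
  have hp0 : (0 : ℤ) < p := by exact_mod_cast hp
  have h0 := Int.emod_nonneg a hp0.ne'
  have h1 := Int.emod_lt_of_pos a hp0
  unfold Rt ra
  rw [mem_filter, mem_range]
  refine ⟨by omega, ?_⟩
  rw [Int.toNat_of_nonneg h0, sub_zero]
  refine (F8_congr (w := w) ?_ j).mpr h
  exact ⟨-(a / p), by have := Int.emod_add_mul_ediv a p; linarith⟩

/-- the sum over the primes of the modulus -/
lemma exp_m {z y : ℕ} (hz : 22 ≤ z) (D : J8 → ℕ) (hD : ∀ i, D i ∈ (PP z y).divisors) :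
    Real.exp (∑ p ∈ PS z y, (∑ i, if p ∣ D i then (1 : ℝ) else 0) * ((nt p : ℝ) / p)) ≤
      ∏ i, ∏ p ∈ (D i).primeFactors, (p : ℝ) / ((p : ℝ) - 10) := by
  have e : ∑ p ∈ PS z y, (∑ i, if p ∣ D i then (1 : ℝ) else 0) * ((nt p : ℝ) / p) =
      ∑ i, ∑ p ∈ (D i).primeFactors, (nt p : ℝ) / p := by
    simp_rw [sum_mul]
    rw [sum_comm]
    refine sum_congr rfl fun i _ => ?_
    have h1 : (D i).primeFactors = (PS z y).filter (fun p => p ∣ D i) := by
      ext p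
      rw [mem_filter, Nat.mem_primeFactors]
      constructor
      · rintro ⟨hp, hd, _⟩
        exact ⟨mem_PS.2 ⟨dv_prime (hD i) hp hd, hp⟩, hd⟩
      · rintro ⟨hp, hd⟩
        exact ⟨(mem_PS.1 hp).2, hd, dv_ne_zero (hD i)⟩
    rw [h1, sum_filter]
    refine sum_congr rfl fun p _ => ?_
    split_ifs <;> simp
  rw [e, Real.exp_sum]
  refine prod_le_prod (fun _ _ => (Real.exp_pos _).le) fun i _ => ?_
  rw [Real.exp_sum]
  refine prod_le_prod (fun _ _ => (Real.exp_pos _).le) fun p hp => ?_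
  have hpp := Nat.prime_of_mem_primeFactors hp
  have hzp := (dv_prime (hD i) hpp (Nat.dvd_of_mem_primeFactors hp)).1
  have := exp_le_div (a := (nt p : ℝ)) (c := 10) (p := p) (Nat.cast_nonneg _)
    (by exact_mod_cast nt_le p) (by omega)
  exact_mod_cast this

/-- the sum over the primes that divide `w` -/
lemma exp_w {z y : ℕ} (hz : 22 ≤ z) {w : ℤ} (hw : w ≠ 0) :
    Real.exp (∑ p ∈ PS z y, (if (p : ℤ) ∣ w then (1 : ℝ) else 0) * ((nt p : ℝ) / p)) ≤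
      ∏ p ∈ w.natAbs.primeFactors.filter (fun p => z < p), (p : ℝ) / ((p : ℝ) - 10) := by
  have e : ∑ p ∈ PS z y, (if (p : ℤ) ∣ w then (1 : ℝ) else 0) * ((nt p : ℝ) / p) ≤
      ∑ p ∈ w.natAbs.primeFactors.filter (fun p => z < p), (nt p : ℝ) / p := by
    have e1 : ∑ p ∈ PS z y, (if (p : ℤ) ∣ w then (1 : ℝ) else 0) * ((nt p : ℝ) / p) =
        ∑ p ∈ (PS z y).filter (fun p : ℕ => (p : ℤ) ∣ w), (nt p : ℝ) / p := by
      rw [sum_filter]
      refine sum_congr rfl fun p _ => ?_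
      split_ifs <;> simp
    rw [e1]
    refine sum_le_sum_of_subset_of_nonneg ?_ fun p _ _ => by positivity
    intro p hp
    rw [mem_filter, mem_PS] at hp
    rw [mem_filter, Nat.mem_primeFactors]
    exact ⟨⟨hp.1.2, Int.natCast_dvd.1 hp.2, Int.natAbs_ne_zero.2 hw⟩, hp.1.1.1⟩
  refine (Real.exp_le_exp.2 e).trans ?_
  rw [Real.exp_sum]
  refine prod_le_prod (fun _ _ => (Real.exp_pos _).le) fun p hp => ?_
  have hzp := (mem_filter.1 hp).2
  have := exp_le_div (a := (nt p : ℝ)) (c := 10) (p := p) (Nat.cast_nonneg _)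
    (by exact_mod_cast nt_le p) (by omega)
  exact_mod_cast this

/-- the weights -/
lemma gp_eq {z y d : ℕ} (hz : 22 ≤ z) (i : J8) (hd : d ∈ (PP z y).divisors)
    (hty : ∀ p : ℕ, p.Prime → p ∣ d → ty8 i.1 p = i.2) :
    (∏ p ∈ d.primeFactors, (nr i.1 p : ℝ)) * ∏ p ∈ d.primeFactors, (p : ℝ) / ((p : ℝ) - 10) =
      (d : ℝ) * gp (rr8 i) 10 d := by
  unfold gp
  have h1 : (d : ℝ) = ∏ p ∈ d.primeFactors, (p : ℝ) := by
    rw [← Nat.cast_prod, Nat.prod_primeFactors_of_squarefree (dv_squarefree hd)]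
  conv_rhs => rw [h1]
  rw [← prod_mul_distrib, ← prod_mul_distrib]
  refine prod_congr rfl fun p hp => ?_
  have hpp := Nat.prime_of_mem_primeFactors hp
  have hpd := Nat.dvd_of_mem_primeFactors hp
  have hzp := (dv_prime hd hpp hpd).1
  rw [nr_eq_rr8 hpp (by omega) i (hty p hpp hpd)]
  push_cast
  ring

lemma gp_nonneg8 {z y d : ℕ} (hz : 22 ≤ z) (i : J8) (hd : d ∈ (PP z y).divisors) :
    0 ≤ gp (rr8 i) 10 d := by
  unfold gp
  refine prod_nonneg fun p hp => div_nonneg (rr8_nonneg _ _) ?_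
  have hpp := Nat.prime_of_mem_primeFactors hp
  have hzp := (dv_prime hd hpp (Nat.dvd_of_mem_primeFactors hp)).1
  have : (10 : ℝ) < p := by exact_mod_cast (by omega : 10 < p)
  push_cast
  linarith

/-- the sieving condition -/
def ZZ (w N : ℤ) (p n : ℕ) : Prop :=
  ¬ (p : ℤ) ∣ w ∧ ∃ j, (p : ℤ) ∣ F8 ((n : ℤ) - N) (w + 2 * ((n : ℤ) - N)) j

lemma ZZ_per (w N : ℤ) (p n : ℕ) : ZZ w N p n ↔ ZZ w N p (n % p) := by
  have h1 : (p : ℤ) ∣ ((n : ℤ) - N) - (((n % p : ℕ) : ℤ) - N) := by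
    push_cast
    exact ⟨(n : ℤ) / p, by have := Int.emod_add_mul_ediv (n : ℤ) p; linarith⟩
  unfold ZZ
  exact and_congr Iff.rfl (exists_congr fun j => F8_congr (w := w) h1 j)

/-- the number of the classes -/
noncomputable def nuw (w : ℤ) (p : ℕ) : ℕ := if (p : ℤ) ∣ w then 0 else nt p

open Classical in
lemma ZZ_card {w N : ℤ} {p : ℕ} (hp : p.Prime) (h7 : 7 < p) :
    ((range p).filter (fun n => ZZ w N p n)).card = nuw w p ∧ nuw w p ≤ 10 := by
  by_cases hpw : (p : ℤ) ∣ w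
  · have e : nuw w p = 0 := if_pos hpw
    rw [e]
    refine ⟨?_, by norm_num⟩
    rw [card_eq_zero, filter_eq_empty_iff]
    exact fun n _ hn => hn.1 hpw
  · have e : nuw w p = nt p := if_neg hpw
    rw [e]
    refine ⟨?_, nt_le p⟩
    have h1 := card_all hp h7 hpw N
    have h2 : nt p = ∑ j, nr j p := rfl
    rw [h2, ← h1]
    congr 1
    ext n
    rw [mem_filter, mem_filter]
    exact and_congr Iff.rfl (and_iff_right hpw)

attribute [local irreducible] F8 pr8 ty8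

/-- the conditions for two elements of a fibre -/
lemma fib_cond {z y Y : ℕ} {s v u : J8 → ℕ} {w N : ℤ} (hz : 22 ≤ z) (hzy : z < y)
    (hs : s ∈ Tup J8 z y) (hv : v ∈ Tup J8 z y) (hu : u ∈ Tup J8 y Y) {t r : ℕ}
    (g : G8 z y s v u ((t : ℤ) - N) (w + 2 * ((t : ℤ) - N)))
    (g' : G8 z y s v u ((r : ℤ) - N) (w + 2 * ((r : ℤ) - N)))
    (h1 : ∀ i, ∀ p : ℕ, p.Prime → p ∣ s i → ra ((t : ℤ) - N) p = ra ((r : ℤ) - N) p)
    (h2 : ∀ i, ∀ p : ℕ, p.Prime → p ∣ v i → ra ((t : ℤ) - N) p = ra ((r : ℤ) - N) p)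
    (h3 : ∀ i, ∀ p : ℕ, p.Prime → p ∣ u i → ra ((t : ℤ) - N) p = ra ((r : ℤ) - N) p) :
    t ≡ r [MOD ∏ i, (s i * v i ^ 2 * u i)] ∧
      ∀ p ∈ PS z y, ¬ p ∣ ∏ i, (s i * v i ^ 2 * u i) → ¬ ZZ w N p t := by
  constructor
  · have h1 := cong8 (by omega) hzy hs hv hu g g'
      (fun i p hp hpd => ra_congr hp.pos (h1 i p hp hpd))
      (fun i p hp hpd => ra_congr hp.pos (h2 i p hp hpd))
      (fun i p hp hpd => ra_congr hp.pos (h3 i p hp hpd))
    have e : ((t : ℤ) - N) - ((r : ℤ) - N) = (t : ℤ) - r := by ring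
    rw [e] at h1
    exact ((Nat.modEq_iff_dvd.2 h1)).symm
  · intro p hpP hpm hpf
    have hp := (mem_PS.1 hpP).2
    have hzp := (mem_PS.1 hpP).1.1
    obtain ⟨j, hj⟩ := hpf.2
    apply hpm
    refine Dvd.dvd.trans ?_ (dvd_prod_of_mem _ (mem_univ (j, ty8 j p)))
    have k1 := (pr8_pow g.ne (j, ty8 j p) hp hzp (k := 1) one_ne_zero).2
      ⟨by rwa [pow_one], rfl⟩
    rw [pow_one] at k1
    by_cases h2 : (p : ℤ) ^ 2 ∣ pr8 z ((t : ℤ) - N) (w + 2 * ((t : ℤ) - N)) (j, ty8 j p)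
    · have h3 : p ∣ v (j, ty8 j p) := by
        rw [← g.hv]
        exact (Pool.Agent.W29.RT.dvd_S2 hp).2 ⟨hpP, h2⟩
      exact ((h3.pow two_ne_zero).mul_left _).mul_right _
    · have h3 : p ∣ s (j, ty8 j p) := by
        rw [← g.hs]
        exact (Pool.Agent.W29.RT.dvd_S1 hp).2 ⟨hpP, k1, h2⟩
      exact (h3.mul_right _).mul_right _

end Pool.Agent.Y515.Z8
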