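import Pool.Agent.Y515.Z8.Fix2

/-!
# Project Z8, part CNT: the count on a line, upper bound
-/

set_option autoImplicit false

namespace Pool.Agent.Y515.Z8

open Finset Pool.Agent.W262.RK Pool.Agent.W307.RT Pool.Agent.TH841.PT Pool.Agent.Y723.Z8
open Pool.Agent.TH841.PT.CNTPf (ra ra_congr exp_le_div mem_flt)
open Pool.Agent.TH841.PT.SVPf (svp)

attribute [local irreducible] F8 pr8 ty8 ZZ

/-- the residue classes -/
noncomputable def Tg (w : ℤ) (s : J8 → ℕ) : Finset ((i : J8) → (s i).primeFactors → ℕ) :=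
  Fintype.piFinset (fun i : J8 => Fintype.piFinset
      (fun p : (s i).primeFactors => Rt w 0 i.1 p))

/-- the residues -/
noncomputable def Ph (s : J8 → ℕ) (a : ℤ) : (i : J8) → (s i).primeFactors → ℕ :=
  fun _ p => ra a p

lemma card_Tg (w : ℤ) (s : J8 → ℕ) :
    (Tg w s).card = ∏ i, ∏ p ∈ (s i).primeFactors, (Rt w 0 i.1 p).card := by
  unfold Tg
  rw [Fintype.card_piFinset]
  refine prod_congr rfl fun i _ => ?_
  rw [Fintype.card_piFinset]
  exact prod_coe_sort (s i).primeFactors (fun p => (Rt w 0 i.1 p).card)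

lemma Ph_mem {w a : ℤ} {s : J8 → ℕ}
    (h : ∀ i, ∀ p : ℕ, p.Prime → p ∣ s i → (p : ℤ) ∣ F8 a (w + 2 * a) i.1) :
    Ph s a ∈ Tg w s := by
  unfold Tg Ph
  rw [Fintype.mem_piFinset]
  intro i
  rw [Fintype.mem_piFinset]
  intro p
  have hp := Nat.prime_of_mem_primeFactors p.2
  exact ra_mem8 hp.pos (h i p hp (Nat.dvd_of_mem_primeFactors p.2))

lemma Ph_eq {a a' : ℤ} {s : J8 → ℕ} (hs : ∀ i, s i ≠ 0) (h : Ph s a = Ph s a') (i : J8) {p : ℕ}
    (hp : p.Prime) (hpd : p ∣ s i) : ra a p = ra a' p :=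
  congrFun (congrFun h i) ⟨p, Nat.mem_primeFactors.2 ⟨hp, hpd, hs i⟩⟩

/-- counting by fibres -/
lemma card_fib {β : Type*} [DecidableEq β] (T : Finset ℕ) (Phi : ℕ → β) (S : Finset β) (B : ℝ)
    (h1 : ∀ t ∈ T, Phi t ∈ S) (hB : 0 ≤ B)
    (h2 : ∀ r ∈ T, ((T.filter (fun t : ℕ => Phi t = Phi r)).card : ℝ) ≤ B) :
    (T.card : ℝ) ≤ (S.card : ℝ) * B := by
  rw [card_eq_sum_card_fiberwise (f := Phi) (t := S) h1]
  rw [Nat.cast_sum]
  have h3 : ∀ φ ∈ S, ((T.filter (fun t : ℕ => Phi t = φ)).card : ℝ) ≤ B := by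
    intro φ _
    rcases (T.filter (fun t : ℕ => Phi t = φ)).eq_empty_or_nonempty with he | ⟨r, hr⟩
    · rw [he, card_empty, Nat.cast_zero]
      exact hB
    · rw [mem_filter] at hr
      have h4 := h2 r hr.1
      rwa [hr.2] at h4
  refine (sum_le_sum h3).trans ?_
  rw [sum_const, nsmul_eq_mul]

/-- the exponential factor -/
lemma W_le {z y : ℕ} (hz : 22 ≤ z) {w : ℤ} (hw : w ≠ 0) {s v : J8 → ℕ} {m : ℕ}
    (hs : ∀ i, s i ∈ (PP z y).divisors) (hv : ∀ i, v i ∈ (PP z y).divisors)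
    (hm : ∀ p ∈ PS z y, p ∣ m → ∃ i, p ∣ s i ∨ p ∣ v i) :
    Real.exp (-∑ p ∈ (PS z y).filter (fun p => ¬ p ∣ m), (nuw w p : ℝ) / p) ≤
      Real.exp (-∑ p ∈ PS z y, (nt p : ℝ) / p) *
      ((∏ i, ∏ p ∈ (s i).primeFactors, (p : ℝ) / ((p : ℝ) - 10)) *
      (∏ i, ∏ p ∈ (v i).primeFactors, (p : ℝ) / ((p : ℝ) - 10)) *
      ∏ p ∈ w.natAbs.primeFactors.filter (fun p => z < p), (p : ℝ) / ((p : ℝ) - 10)) := by
  have h1 := exp_m hz s hs
  have h2 := exp_m hz v hv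
  have h3 := exp_w (y := y) hz hw
  have h4 := mul_le_mul (mul_le_mul h1 h2 (Real.exp_pos _).le
    ((Real.exp_pos _).le.trans h1)) h3 (Real.exp_pos _).le
    (mul_nonneg ((Real.exp_pos _).le.trans h1) ((Real.exp_pos _).le.trans h2))
  rw [← Real.exp_add, ← Real.exp_add] at h4
  refine le_trans ?_ (mul_le_mul_of_nonneg_left h4 (Real.exp_pos _).le)
  rw [← Real.exp_add]
  apply Real.exp_le_exp.2
  rw [neg_le_iff_add_nonneg, ← sub_nonneg] 
  have e : (PS z y).filter (fun p => ¬ p ∣ m) = (PS z y).filter (fun p => ¬ p ∣ m) := rfl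
  have key : ∑ p ∈ PS z y, (nt p : ℝ) / p ≤
      ∑ p ∈ (PS z y).filter (fun p => ¬ p ∣ m), (nuw w p : ℝ) / p +
      (∑ p ∈ PS z y, (∑ i, if p ∣ s i then (1 : ℝ) else 0) * ((nt p : ℝ) / p) +
      ∑ p ∈ PS z y, (∑ i, if p ∣ v i then (1 : ℝ) else 0) * ((nt p : ℝ) / p) +
      ∑ p ∈ PS z y, (if (p : ℤ) ∣ w then (1 : ℝ) else 0) * ((nt p : ℝ) / p)) := by
    rw [sum_filter, ← sum_add_distrib, ← sum_add_distrib, ← sum_add_distrib]
    refine sum_le_sum fun p hp => ?_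
    have hn : 0 ≤ (nt p : ℝ) / p := by positivity
    have i1 : 0 ≤ ∑ i, (if p ∣ s i then (1 : ℝ) else 0) := sum_nonneg fun i _ => by
      split_ifs <;> norm_num
    have i2 : 0 ≤ ∑ i, (if p ∣ v i then (1 : ℝ) else 0) := sum_nonneg fun i _ => by
      split_ifs <;> norm_num
    have i3 : 0 ≤ (if (p : ℤ) ∣ w then (1 : ℝ) else 0) := by split_ifs <;> norm_num
    have j1 := mul_nonneg i1 hn
    have j2 := mul_nonneg i2 hn
    have j3 := mul_nonneg i3 hn
    by_cases hpm : p ∣ m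
    · have k0 : 0 ≤ (if ¬ p ∣ m then (nuw w p : ℝ) / p else 0) := by
        split_ifs <;> positivity
      obtain ⟨i, hi⟩ := hm p hp hpm
      rcases hi with hi | hi
      · have : 1 ≤ ∑ i, (if p ∣ s i then (1 : ℝ) else 0) := by
          refine le_trans (by rw [if_pos hi]) (single_le_sum (f := fun i => if p ∣ s i then (1 : ℝ) else 0) (fun i _ => by
            split_ifs <;> norm_num) (mem_univ i))
        nlinarith
      · have : 1 ≤ ∑ i, (if p ∣ v i then (1 : ℝ) else 0) := by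
          refine le_trans (by rw [if_pos hi]) (single_le_sum (f := fun i => if p ∣ v i then (1 : ℝ) else 0) (fun i _ => by
            split_ifs <;> norm_num) (mem_univ i))
        nlinarith
    · rw [if_pos hpm]
      by_cases hpw : (p : ℤ) ∣ w
      · have k0 : 0 ≤ (nuw w p : ℝ) / p := by positivity
        rw [if_pos hpw] at j3 ⊢
        linarith
      · have : nuw w p = nt p := if_neg hpw
        rw [this]
        linarith
  linarith

end Pool.Agent.Y515.Z8
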