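import Pool.Agent.Y515.Z8.Fix3

/-!
# Project Z8, part CNT: the count on a line, upper bound
-/

set_option autoImplicit false

namespace Pool.Agent.Y515.Z8

open Finset Pool.Agent.W262.RK Pool.Agent.W307.RT Pool.Agent.TH841.PT Pool.Agent.Y723.Z8
open Pool.Agent.TH841.PT.CNTPf (ra ra_congr exp_le_div mem_flt)
open Pool.Agent.TH841.PT.SVPf (svp)

attribute [local irreducible] F8 pr8 ty8 ZZ Tg Ph ra Rt gp rr8 nr nt

/-- the modulus -/
def mo (s v u : J8 → ℕ) : ℕ := ∏ i, (s i * v i ^ 2 * u i)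

lemma mo_pos {z y Y : ℕ} {s v u : J8 → ℕ} (hs : ∀ i, s i ∈ (PP z y).divisors)
    (hv : ∀ i, v i ∈ (PP z y).divisors) (hu : ∀ i, u i ∈ (PP y Y).divisors) : 1 ≤ mo s v u := by
  refine Nat.succ_le_of_lt (prod_pos fun j _ => ?_)
  have h1 := dv_pos (hs j)
  have h2 := dv_pos (hv j)
  have h3 := dv_pos (hu j)
  positivity

lemma mo_le {z y Y X : ℕ} {s v u : J8 → ℕ} (hs : ∀ i, s i ∈ (PP z y).divisors)
    (hu : ∀ i, u i ∈ (PP y Y).divisors)
    (h : (∏ i, s i * v i * u i) ^ 8 ≤ X) : mo s v u ^ 4 ≤ X := by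
  refine le_trans ?_ h
  have h1 : mo s v u ≤ (∏ j, s j * v j * u j) ^ 2 := by
    unfold mo
    rw [← prod_pow]
    apply prod_le_prod'
    intro j _
    have h1 := dv_pos (hs j)
    have h3 := dv_pos (hu j)
    calc s j * v j ^ 2 * u j ≤ (s j * s j) * v j ^ 2 * (u j * u j) := by
          apply Nat.mul_le_mul
          · apply Nat.mul_le_mul_right
            nlinarith
          · nlinarith
      _ = (s j * v j * u j) ^ 2 := by ring
  calc mo s v u ^ 4 ≤ ((∏ j, s j * v j * u j) ^ 2) ^ 4 := Nat.pow_le_pow_left h1 4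
    _ = (∏ j, s j * v j * u j) ^ 8 := by rw [← pow_mul]

lemma mo_dvd {z y Y : ℕ} {s v u : J8 → ℕ} (hu : ∀ i, u i ∈ (PP y Y).divisors) {p : ℕ}
    (hp : p ∈ PS z y) (h : p ∣ mo s v u) : ∃ i, p ∣ s i ∨ p ∣ v i := by
  have hpp := (mem_PS.1 hp).2
  obtain ⟨i, _, hi⟩ := (hpp.prime.dvd_finsetProd_iff _).1 h
  refine ⟨i, ?_⟩
  rcases hpp.dvd_mul.1 hi with hi | hi
  · rcases hpp.dvd_mul.1 hi with hi | hi
    · exact Or.inl hi
    · exact Or.inr (hpp.dvd_of_dvd_pow hi)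
  · have h1 := (dv_prime (hu i) hpp hi).1
    have h2 := (mem_PS.1 hp).1.2
    omega

/-- the final identity -/
lemma fin_alg {s v u : J8 → ℕ} (hs : ∀ i, s i ≠ 0) (hv : ∀ i, v i ≠ 0) (hu : ∀ i, u i ≠ 0)
    {a1 b1 a2 b2 q gs gv : J8 → ℝ} (h1 : ∀ i, a1 i * b1 i = s i * gs i)
    (h2 : ∀ i, a2 i * b2 i = v i * gv i) (C C1 X W L : ℝ) :
    ((∏ i, a1 i) * ((∏ i, a2 i) * ∏ i, q i)) * (C * (X / (mo s v u : ℕ)) *
      (C1 / L * ((∏ i, b1 i) * (∏ i, b2 i) * W))) =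
      C * C1 * X * (∏ i, gs i) * (∏ i, gv i / v i) * (∏ i, q i / (u i : ℝ)) / L * W := by
  have e1 : (∏ i, a1 i) * (∏ i, b1 i) = (∏ i, (s i : ℝ)) * ∏ i, gs i := by
    rw [← prod_mul_distrib, ← prod_mul_distrib]
    exact prod_congr rfl fun i _ => h1 i
  have e2 : (∏ i, a2 i) * (∏ i, b2 i) = (∏ i, (v i : ℝ)) * ∏ i, gv i := by
    rw [← prod_mul_distrib, ← prod_mul_distrib]
    exact prod_congr rfl fun i _ => h2 i
  have e3 : ((mo s v u : ℕ) : ℝ) = (∏ i, (s i : ℝ)) * (∏ i, (v i : ℝ)) ^ 2 * ∏ i, (u i : ℝ) := by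
    unfold mo
    rw [Nat.cast_prod, ← prod_pow, ← prod_mul_distrib, ← prod_mul_distrib]
    exact prod_congr rfl fun i _ => by push_cast; ring
  have s0 : (∏ i, (s i : ℝ)) ≠ 0 := prod_ne_zero_iff.2 fun i _ => Nat.cast_ne_zero.2 (hs i)
  have v0 : (∏ i, (v i : ℝ)) ≠ 0 := prod_ne_zero_iff.2 fun i _ => Nat.cast_ne_zero.2 (hv i)
  have u0 : (∏ i, (u i : ℝ)) ≠ 0 := prod_ne_zero_iff.2 fun i _ => Nat.cast_ne_zero.2 (hu i)
  rw [prod_div_distrib, prod_div_distrib, e3]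
  generalize (∏ i, (s i : ℝ)) = S at *
  generalize (∏ i, (v i : ℝ)) = V at *
  generalize (∏ i, (u i : ℝ)) = U at *
  generalize (∏ i, a1 i) = A1 at *
  generalize (∏ i, a2 i) = A2 at *
  generalize (∏ i, b1 i) = B1 at *
  generalize (∏ i, b2 i) = B2 at *
  generalize (∏ i, gs i) = GS at *
  generalize (∏ i, gv i) = GV at *
  generalize (∏ i, q i) = Q at *
  have e4 : (A1 * (A2 * Q)) * (C * (X / (S * V ^ 2 * U)) * (C1 / L * (B1 * B2 * W))) =
      (A1 * B1) * (A2 * B2) * (Q * (C * (X / (S * V ^ 2 * U)) * (C1 / L * W))) := by ring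
  rw [e4, e1, e2]
  have e5 : X / (S * V ^ 2 * U) = X / S / V / V / U := by
    field_simp
  rw [e5]
  field_simp

open Classical in
/-- FIX -/
theorem fix_le (h : S_CHR) (z : ℕ) (hz : 22 ≤ z) : ∃ (C : ℝ) (K y0 : ℕ), 0 ≤ C ∧ 1 ≤ K ∧
    ∀ X y Y : ℕ, y0 ≤ y → z < y → y ^ K ≤ X →
    ∀ s ∈ Tup J8 z y, ∀ v ∈ Tup J8 z y, ∀ u ∈ Tup J8 y Y, (∏ i, s i * v i * u i) ^ 8 ≤ X →
    ∀ w N : ℤ, w ≠ 0 →
    (((Icc 1 X).filter (fun t : ℕ =>
      G8 z y s v u ((t : ℤ) - N) (w + 2 * ((t : ℤ) - N)))).card : ℝ) ≤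
      C * X * (∏ i, gp (rr8 i) 10 (s i)) * (∏ i, gp (rr8 i) 10 (v i) / v i) *
        (∏ i, 2 ^ (u i).primeFactors.card / (u i : ℝ)) / (Real.log y) ^ 7 *
        ∏ p ∈ w.natAbs.primeFactors.filter (fun p => z < p), (p : ℝ) / ((p : ℝ) - 10) := by
  obtain ⟨C, K, y0, hC, hK, hSV⟩ := svp 10 z (by omega)
  obtain ⟨C1, hC1, hM⟩ := exp_nt h z (by omega)
  refine ⟨C * C1, K, y0, mul_nonneg hC hC1, hK, ?_⟩
  intro X y Y hy0 hzy hX s hs v hv u hu hsvu w N hw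
  have hs' := (Pool.Agent.W372.RK2.mem_Tup'.1 hs).1
  have hv' := (Pool.Agent.W372.RK2.mem_Tup'.1 hv).1
  have hu' := (Pool.Agent.W372.RK2.mem_Tup'.1 hu).1
  have hlog : 0 ≤ (Real.log y) ^ 7 := pow_nonneg (Real.log_natCast_nonneg y) _
  set gW : ℝ := ∏ p ∈ w.natAbs.primeFactors.filter (fun p => z < p), (p : ℝ) / ((p : ℝ) - 10)
    with hgW
  have hgW0 : 0 ≤ gW := prod_nonneg fun p hp => by
    have : (10 : ℝ) < p := by exact_mod_cast (by have := (mem_filter.1 hp).2; omega : 10 < p)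
    exact div_nonneg (Nat.cast_nonneg _) (by linarith)
  have hgs : ∀ i, 0 ≤ gp (rr8 i) 10 (s i) := fun i => gp_nonneg8 hz i (hs' i)
  have hgv : ∀ i, 0 ≤ gp (rr8 i) 10 (v i) := fun i => gp_nonneg8 hz i (hv' i)
  set T := (Icc 1 X).filter (fun t : ℕ =>
      G8 z y s v u ((t : ℤ) - N) (w + 2 * ((t : ℤ) - N))) with hT
  have hgood : ∀ t ∈ T, G8 z y s v u ((t : ℤ) - N) (w + 2 * ((t : ℤ) - N)) := by
    intro t ht
    rw [hT, mem_filter] at ht
    exact ht.2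
  rcases T.eq_empty_or_nonempty with hTe | ⟨t0, ht0⟩
  · rw [hTe, card_empty, Nat.cast_zero]
    have h1 : 0 ≤ ∏ i, gp (rr8 i) 10 (s i) := prod_nonneg fun j _ => hgs j
    have h2 : 0 ≤ ∏ i, gp (rr8 i) 10 (v i) / v i :=
      prod_nonneg fun j _ => div_nonneg (hgv j) (Nat.cast_nonneg _)
    have h3 : 0 ≤ ∏ i, (2 : ℝ) ^ (u i).primeFactors.card / (u i : ℝ) :=
      prod_nonneg fun j _ => div_nonneg (pow_nonneg zero_le_two _) (Nat.cast_nonneg _)
    exact mul_nonneg (div_nonneg (mul_nonneg (mul_nonneg (mul_nonneg (mul_nonneg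
      (mul_nonneg hC hC1) (Nat.cast_nonneg _)) h1) h2) h3) hlog) hgW0
  have g0 := hgood t0 ht0
  -- the sieve
  have hSVm := hSV X y hy0 hzy hX (ZZ w N) (nuw w) (fun p _ n => ZZ_per w N p n)
    (fun p hp => ZZ_card (mem_PS.1 hp).2 (by have := (mem_PS.1 hp).1.1; omega)) (mo s v u)
  set W : ℝ := Real.exp (-∑ p ∈ (PS z y).filter (fun p => ¬ p ∣ mo s v u),
    (nuw w p : ℝ) / p) with hW
  set B : ℝ := C * (X / (mo s v u : ℕ)) * W with hB
  have hB0 : 0 ≤ B := mul_nonneg (mul_nonneg hC (div_nonneg (Nat.cast_nonneg _)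
    (Nat.cast_nonneg _))) (Real.exp_pos _).le
  have hcard : (T.card : ℝ) ≤ ((Tg w s ×ˢ (Tg w v ×ˢ Tg w u)).card : ℝ) * B := by
    refine card_fib T (fun t => (Ph s ((t : ℤ) - N), (Ph v ((t : ℤ) - N), Ph u ((t : ℤ) - N))))
      _ B ?_ hB0 ?_
    · intro t ht
      have g := hgood t ht
      rw [mem_product, mem_product]
      exact ⟨Ph_mem fun i p hp hpd => (g.fs hp hpd).2.1,
        Ph_mem fun i p hp hpd => (dvd_pow_self (p : ℤ) two_ne_zero).trans (g.fv hp hpd).2.1,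
        Ph_mem fun i p hp hpd => (g.fu hzy hu hp hpd).2.1⟩
    · intro r hr
      refine le_trans ?_ (hSVm r (mo_pos hs' hv' hu') (mo_le hs' hu' hsvu))
      rw [Nat.cast_le]
      apply card_le_card
      intro t ht
      rw [mem_filter] at ht
      have g := hgood t ht.1
      have g' := hgood r hr
      have htX : t ∈ Icc 1 X := (mem_filter.1 ht.1).1
      have q1 := congrArg Prod.fst ht.2
      have q2 := congrArg (fun x => x.2.1) ht.2
      have q3 := congrArg (fun x => x.2.2) ht.2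
      exact mem_flt htX (fib_cond hz hzy hs hv hu g g'
        (fun i p hp hpd => Ph_eq (fun i => dv_ne_zero (hs' i)) q1 i hp hpd)
        (fun i p hp hpd => Ph_eq (fun i => dv_ne_zero (hv' i)) q2 i hp hpd)
        (fun i p hp hpd => Ph_eq (fun i => dv_ne_zero (hu' i)) q3 i hp hpd))
  -- the number of the classes
  have hcs : ((Tg w s).card : ℝ) = ∏ i, ∏ p ∈ (s i).primeFactors, (nr i.1 p : ℝ) := by
    rw [card_Tg]
    push_cast
    refine prod_congr rfl fun i _ => prod_congr rfl fun p hp => ?_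
    have hpp := Nat.prime_of_mem_primeFactors hp
    have f := g0.fs hpp (Nat.dvd_of_mem_primeFactors hp)
    have hzp := (mem_PS.1 f.1).1.1
    rw [card_Rt hpp (by omega) (not_dvd_w hpp (by omega) g0.cop f.2.1)]
  have hcv : ((Tg w v).card : ℝ) = ∏ i, ∏ p ∈ (v i).primeFactors, (nr i.1 p : ℝ) := by
    rw [card_Tg]
    push_cast
    refine prod_congr rfl fun i _ => prod_congr rfl fun p hp => ?_
    have hpp := Nat.prime_of_mem_primeFactors hp
    have f := g0.fv hpp (Nat.dvd_of_mem_primeFactors hp)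
    have hzp := (mem_PS.1 f.1).1.1
    rw [card_Rt hpp (by omega) (not_dvd_w hpp (by omega) g0.cop
      ((dvd_pow_self (p : ℤ) two_ne_zero).trans f.2.1))]
  have hcu : ((Tg w u).card : ℝ) ≤ ∏ i, (2 : ℝ) ^ (u i).primeFactors.card := by
    rw [card_Tg]
    push_cast
    refine prod_le_prod (fun _ _ => prod_nonneg fun _ _ => Nat.cast_nonneg _) fun i _ => ?_
    rw [← prod_const]
    refine prod_le_prod (fun _ _ => Nat.cast_nonneg _) fun p hp => ?_
    have hpp := Nat.prime_of_mem_primeFactors hp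
    have f := g0.fu hzy hu hpp (Nat.dvd_of_mem_primeFactors hp)
    rw [card_Rt hpp (by omega) (not_dvd_w hpp (by omega) g0.cop f.2.1)]
    exact_mod_cast nr_le i.1 p
  have hy3 : 3 ≤ y := by omega
  have hWle : W ≤ C1 / (Real.log y) ^ 7 *
      ((∏ i, ∏ p ∈ (s i).primeFactors, (p : ℝ) / ((p : ℝ) - 10)) *
      (∏ i, ∏ p ∈ (v i).primeFactors, (p : ℝ) / ((p : ℝ) - 10)) * gW) := by
    refine (W_le hz hw hs' hv' (fun p hp hpm => mo_dvd hu' hp hpm)).trans ?_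
    apply mul_le_mul_of_nonneg_right (hM y hy3 hzy)
    have k : ∀ d : ℕ, d ∈ (PP z y).divisors →
        0 ≤ ∏ p ∈ d.primeFactors, (p : ℝ) / ((p : ℝ) - 10) := by
      intro d hd
      refine prod_nonneg fun p hp => ?_
      have hpp := Nat.prime_of_mem_primeFactors hp
      have hzp := (dv_prime hd hpp (Nat.dvd_of_mem_primeFactors hp)).1
      have : (10 : ℝ) < p := by exact_mod_cast (by omega : 10 < p)
      exact div_nonneg (Nat.cast_nonneg _) (by linarith)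
    exact mul_nonneg (mul_nonneg (prod_nonneg fun i _ => k _ (hs' i))
      (prod_nonneg fun i _ => k _ (hv' i))) hgW0
  have hTgle : ((Tg w s ×ˢ (Tg w v ×ˢ Tg w u)).card : ℝ) ≤
      (∏ i, ∏ p ∈ (s i).primeFactors, (nr i.1 p : ℝ)) *
      ((∏ i, ∏ p ∈ (v i).primeFactors, (nr i.1 p : ℝ)) *
        ∏ i, (2 : ℝ) ^ (u i).primeFactors.card) := by
    rw [card_product, card_product]
    push_cast
    rw [hcs, hcv]
    apply mul_le_mul_of_nonneg_left _ (prod_nonneg fun _ _ => prod_nonneg fun _ _ =>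
      Nat.cast_nonneg _)
    exact mul_le_mul_of_nonneg_left hcu (prod_nonneg fun _ _ => prod_nonneg fun _ _ =>
      Nat.cast_nonneg _)
  refine hcard.trans ?_
  have hfin : ((Tg w s ×ˢ (Tg w v ×ˢ Tg w u)).card : ℝ) * B ≤
      ((∏ i, ∏ p ∈ (s i).primeFactors, (nr i.1 p : ℝ)) *
      ((∏ i, ∏ p ∈ (v i).primeFactors, (nr i.1 p : ℝ)) *
        ∏ i, (2 : ℝ) ^ (u i).primeFactors.card)) *
      (C * (X / (mo s v u : ℕ)) * (C1 / (Real.log y) ^ 7 *
      ((∏ i, ∏ p ∈ (s i).primeFactors, (p : ℝ) / ((p : ℝ) - 10)) *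
      (∏ i, ∏ p ∈ (v i).primeFactors, (p : ℝ) / ((p : ℝ) - 10)) * gW))) := by
    apply mul_le_mul hTgle _ hB0 (le_trans (Nat.cast_nonneg _) hTgle)
    rw [hB]
    exact mul_le_mul_of_nonneg_left hWle (mul_nonneg hC (div_nonneg (Nat.cast_nonneg _)
      (Nat.cast_nonneg _)))
  refine hfin.trans (le_of_eq ?_)
  exact fin_alg (fun i => dv_ne_zero (hs' i)) (fun i => dv_ne_zero (hv' i))
    (fun i => dv_ne_zero (hu' i))
    (fun i => gp_eq hz i (hs' i) (fun p hp hpd => (g0.fs hp hpd).2.2.2))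
    (fun i => gp_eq hz i (hv' i) (fun p hp hpd => (g0.fv hp hpd).2.2)) C C1 X gW _

end Pool.Agent.Y515.Z8
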