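import Pool.Agent.Y723.Z8.Stm

/-!
# Project Z8, part CNT: local facts on the seven forms
-/

set_option autoImplicit false

namespace Pool.Agent.Y515.Z8

open Finset Pool.Agent.W262.RK Pool.Agent.W307.RT Pool.Agent.TH841.PT Pool.Agent.Y723.Z8

/-- the seven forms over a ring -/
def Fr {R : Type*} [CommRing R] (a b : R) (j : Fin 7) : R :=
  ![a, b, a - b, a + b, a ^ 2 + b ^ 2, a ^ 2 - 2 * a * b - b ^ 2, a ^ 2 + 2 * a * b - b ^ 2] j

lemma cast_F8 (p : ℕ) (a b : ℤ) (j : Fin 7) :
    ((F8 a b j : ℤ) : ZMod p) = Fr (a : ZMod p) (b : ZMod p) j := by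
  fin_cases j <;> simp [F8, Fr]

section field

variable {F : Type*} [Field F]

/-- two different forms have no common zero -/
lemma un_field (h2 : (2 : F) ≠ 0) {a b : F} {j l : Fin 7} (hj : Fr a b j = 0)
    (hl : Fr a b l = 0) (hjl : j ≠ l) : a = 0 ∧ b = 0 := by
  have k1 : ∀ x : F, 2 * x = 0 → x = 0 := fun x hx => (mul_eq_zero.1 hx).resolve_left h2
  have k2 : ∀ x : F, x ^ 2 = 0 → x = 0 := fun x hx => (pow_eq_zero_iff two_ne_zero).1 hx
  wlog hlt : j < l generalizing j l with H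
  · exact H hl hj hjl.symm (lt_of_le_of_ne (not_lt.1 hlt) hjl.symm)
  fin_cases j <;> fin_cases l <;> simp [Fr] at hj hl hlt ⊢
  all_goals first
    | grind
    | skip
  · have e1 : a * (a - b) = 0 := k1 _ (by linear_combination hj + hl)
    rcases mul_eq_zero.1 e1 with h | h
    · subst h
      exact ⟨rfl, k2 _ (by linear_combination hj)⟩
    · have h' : a = b := sub_eq_zero.1 h
      subst h'
      have := k2 a (k1 _ (by linear_combination hj))
      exact ⟨this, this⟩
  · have e1 : a * (a + b) = 0 := k1 _ (by linear_combination hj + hl)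
    rcases mul_eq_zero.1 e1 with h | h
    · subst h
      exact ⟨rfl, k2 _ (by linear_combination hj)⟩
    · have h' : a = -b := eq_neg_of_add_eq_zero_left h
      subst h'
      have := k2 b (k1 _ (by linear_combination hj))
      exact ⟨by rw [this, neg_zero], this⟩
  · have e1 : a * b = 0 := k1 _ (k1 _ (by linear_combination hl - hj))
    rcases mul_eq_zero.1 e1 with h | h
    · subst h
      exact ⟨rfl, k2 _ (by linear_combination -hj)⟩
    · subst h
      exact ⟨k2 _ (by linear_combination hj), rfl⟩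

end field

section zmod

variable {p : ℕ} [hp : Fact p.Prime]

lemma two_ne {p : ℕ} [hp : Fact p.Prime] (h7 : 7 < p) (n : ℕ) (hn : 0 < n) (hn7 : n ≤ 7) :
    ((n : ℕ) : ZMod p) ≠ 0 := by
  rw [Ne, ZMod.natCast_eq_zero_iff]
  intro h
  have := Nat.le_of_dvd hn h
  omega

/-- the number of the roots of a quadratic polynomial -/
lemma card_quad {F : Type*} [Field F] [Fintype F] [DecidableEq F] (c d k w : F) (hc : c ≠ 0)
    (hw : w ≠ 0) (P : F → Prop) [DecidablePred P] (hP : ∀ x, P x ↔ ((c * x + d * w) / w) ^ 2 = k) :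
    (univ.filter P).card = (univ.filter (fun y : F => y ^ 2 = k)).card := by
  refine Finset.card_bij' (fun x _ => (c * x + d * w) / w) (fun y _ => (y * w - d * w) / c)
    ?_ ?_ ?_ ?_
  · intro x hx
    rw [mem_filter] at hx ⊢
    exact ⟨mem_univ _, (hP x).1 hx.2⟩
  · intro y hy
    rw [mem_filter] at hy ⊢
    refine ⟨mem_univ _, (hP _).2 ?_⟩
    rw [← hy.2]
    congr 1
    field_simp
    ring
  · intro x _
    field_simp
    ring
  · intro y _
    field_simp
    ring

lemma card_one {F : Type*} [Fintype F] [DecidableEq F] (P : F → Prop) [DecidablePred P] (x0 : F)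
    (h : ∀ x, P x ↔ x = x0) : (univ.filter P).card = 1 := by
  rw [card_eq_one]
  refine ⟨x0, ?_⟩
  ext x
  rw [mem_filter, mem_singleton]
  exact ⟨fun hx => (h x).1 hx.2, fun hx => ⟨mem_univ _, (h x).2 hx⟩⟩

/-- the number of the roots of the forms on a line -/
noncomputable def nr (j : Fin 7) (p : ℕ) : ℕ :=
  if j.val < 4 then 1 else if j.val = 4 then (if p % 4 = 1 then 2 else 0)
    else (if p % 8 = 1 ∨ p % 8 = 7 then 2 else 0)

lemma card_m1 (h7 : 7 < p) :
    (univ.filter (fun y : ZMod p => y ^ 2 = -1)).card = if p % 4 = 1 then 2 else 0 := by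
  have hp2 : p ≠ 2 := by omega
  have h := legendreSym.card_sqrts p hp2 (-1)
  rw [legendreSym.at_neg_one hp2] at h
  have he : ({x : ZMod p | x ^ 2 = ((-1 : ℤ) : ZMod p)}.toFinset) =
      univ.filter (fun y : ZMod p => y ^ 2 = -1) := by
    ext x
    simp
  rw [he, ZMod.χ₄_nat_eq_if_mod_four] at h
  have hodd : p % 2 = 1 := hp.out.eq_two_or_odd.resolve_left hp2
  split_ifs at h ⊢ with h1 h2 h3 <;> omega

lemma card_2 (h7 : 7 < p) :
    (univ.filter (fun y : ZMod p => y ^ 2 = 2)).card =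
      if p % 8 = 1 ∨ p % 8 = 7 then 2 else 0 := by
  have hp2 : p ≠ 2 := by omega
  have h := legendreSym.card_sqrts p hp2 2
  rw [legendreSym.at_two hp2] at h
  have he : ({x : ZMod p | x ^ 2 = ((2 : ℤ) : ZMod p)}.toFinset) =
      univ.filter (fun y : ZMod p => y ^ 2 = 2) := by
    ext x
    simp
  rw [he, ZMod.χ₈_nat_eq_if_mod_eight] at h
  have hodd : p % 2 = 1 := hp.out.eq_two_or_odd.resolve_left hp2
  split_ifs at h ⊢ with h1 h2 h3 <;> omega

lemma card_root (h7 : 7 < p) {w : ZMod p} (hw : w ≠ 0) (j : Fin 7) :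
    (univ.filter (fun x : ZMod p => Fr x (w + 2 * x) j = 0)).card = nr j p := by
  have n2 : (2 : ZMod p) ≠ 0 := by simpa using two_ne h7 2 (by norm_num) (by norm_num)
  have n3 : (3 : ZMod p) ≠ 0 := by simpa using two_ne h7 3 (by norm_num) (by norm_num)
  have n5 : (5 : ZMod p) ≠ 0 := by simpa using two_ne h7 5 (by norm_num) (by norm_num)
  have n7 : (7 : ZMod p) ≠ 0 := by simpa using two_ne h7 7 (by norm_num) (by norm_num)
  fin_cases j
  · exact card_one (fun x => Fr x (w + 2 * x) 0 = 0) 0 (fun x => by simp [Fr])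
  · refine card_one (fun x => Fr x (w + 2 * x) 1 = 0) (-w / 2) (fun x => ?_)
    simp only [Fr]
    simp
    rw [eq_div_iff n2]
    exact ⟨fun h => by linear_combination h, fun h => by linear_combination h⟩
  · refine card_one (fun x => Fr x (w + 2 * x) 2 = 0) (-w) (fun x => ?_)
    simp only [Fr]
    simp
    exact ⟨fun h => by linear_combination -h, fun h => by linear_combination -h⟩
  · refine card_one (fun x => Fr x (w + 2 * x) 3 = 0) (-w / 3) (fun x => ?_)
    simp only [Fr]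
    simp
    rw [eq_div_iff n3]
    exact ⟨fun h => by linear_combination h, fun h => by linear_combination h⟩
  · have h := card_quad (5 : ZMod p) 2 (-1) w n5 hw (fun x => Fr x (w + 2 * x) 4 = 0) (by
      intro x
      rw [div_pow, div_eq_iff (pow_ne_zero 2 hw)]
      have e : (5 * x + 2 * w) ^ 2 - -1 * w ^ 2 = 5 * Fr x (w + 2 * x) 4 := by
        simp only [Fr]
        simp
        ring
      rw [← sub_eq_zero (b := -1 * w ^ 2), e, mul_eq_zero]
      exact ⟨Or.inr, fun h => h.resolve_left n5⟩)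
    rw [card_m1 h7] at h
    exact h
  · have h := card_quad (7 : ZMod p) 3 2 w n7 hw (fun x => Fr x (w + 2 * x) 5 = 0) (by
      intro x
      rw [div_pow, div_eq_iff (pow_ne_zero 2 hw)]
      have e : (7 * x + 3 * w) ^ 2 - 2 * w ^ 2 = -(7 * Fr x (w + 2 * x) 5) := by
        simp only [Fr]
        simp
        ring
      rw [← sub_eq_zero (b := 2 * w ^ 2), e, neg_eq_zero, mul_eq_zero]
      exact ⟨Or.inr, fun h => h.resolve_left n7⟩)
    rw [card_2 h7] at h
    exact h
  · have h := card_quad (1 : ZMod p) (-1) 2 w one_ne_zero hw (fun x => Fr x (w + 2 * x) 6 = 0) (by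
      intro x
      rw [div_pow, div_eq_iff (pow_ne_zero 2 hw)]
      have e : (1 * x + -1 * w) ^ 2 - 2 * w ^ 2 = Fr x (w + 2 * x) 6 := by
        simp only [Fr]
        simp
        ring
      rw [← sub_eq_zero (b := 2 * w ^ 2), e])
    rw [card_2 h7] at h
    exact h

end zmod

/-- the roots modulo `p` on the line -/
def Rt (w N : ℤ) (j : Fin 7) (p : ℕ) : Finset ℕ :=
  (range p).filter (fun n : ℕ => (p : ℤ) ∣ F8 ((n : ℤ) - N) (w + 2 * ((n : ℤ) - N)) j)

lemma card_range {p : ℕ} [hp : Fact p.Prime] (N : ℤ) (P : ZMod p → Prop) [DecidablePred P]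
    (Q : ℕ → Prop) [DecidablePred Q] (hPQ : ∀ n : ℕ, Q n ↔ P (((n : ℤ) - N : ℤ) : ZMod p)) :
    ((range p).filter Q).card = (univ.filter P).card := by
  refine Finset.card_bij (fun n _ => (((n : ℤ) - N : ℤ) : ZMod p)) ?_ ?_ ?_
  · intro n hn
    rw [mem_filter] at hn ⊢
    exact ⟨mem_univ _, (hPQ n).1 hn.2⟩
  · intro n hn m hm h
    rw [mem_filter, mem_range] at hn hm
    push_cast at h
    have h1 : (n : ZMod p) = (m : ZMod p) := sub_left_injective h
    rw [ZMod.natCast_eq_natCast_iff'] at h1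
    rwa [Nat.mod_eq_of_lt hn.1, Nat.mod_eq_of_lt hm.1] at h1
  · intro x hx
    rw [mem_filter] at hx
    have h1 : ((((x + (N : ZMod p)).val : ℕ) : ℤ) - N : ℤ) = (((x + (N : ZMod p)).val : ℕ) : ℤ) - N :=
      rfl
    have h2 : (((((x + (N : ZMod p)).val : ℕ) : ℤ) - N : ℤ) : ZMod p) = x := by
      push_cast
      rw [ZMod.natCast_zmod_val]
      ring
    refine ⟨(x + (N : ZMod p)).val, ?_, h2⟩
    rw [mem_filter, mem_range]
    refine ⟨ZMod.val_lt _, (hPQ _).2 ?_⟩
    rw [h2]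
    exact hx.2

lemma dvd_F8_iff {p : ℕ} (w a : ℤ) (j : Fin 7) : (p : ℤ) ∣ F8 a (w + 2 * a) j ↔
    Fr (a : ZMod p) ((w : ZMod p) + 2 * (a : ZMod p)) j = 0 := by
  rw [← ZMod.intCast_zmod_eq_zero_iff_dvd, cast_F8]
  push_cast
  rfl

lemma card_Rt {p : ℕ} (hp : p.Prime) (h7 : 7 < p) {w : ℤ} (hw : ¬ (p : ℤ) ∣ w) (N : ℤ)
    (j : Fin 7) : (Rt w N j p).card = nr j p := by
  haveI : Fact p.Prime := ⟨hp⟩
  have hw' : (w : ZMod p) ≠ 0 := by rwa [Ne, ZMod.intCast_zmod_eq_zero_iff_dvd]
  rw [← card_root h7 hw' j]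
  exact card_range N _ _ (fun n => dvd_F8_iff w _ j)

/-- the number of all the forbidden classes -/
lemma card_all {p : ℕ} (hp : p.Prime) (h7 : 7 < p) {w : ℤ} (hw : ¬ (p : ℤ) ∣ w) (N : ℤ) :
    ((range p).filter (fun n : ℕ => ∃ j, (p : ℤ) ∣
      F8 ((n : ℤ) - N) (w + 2 * ((n : ℤ) - N)) j)).card = ∑ j, nr j p := by
  haveI : Fact p.Prime := ⟨hp⟩
  have hw' : (w : ZMod p) ≠ 0 := by rwa [Ne, ZMod.intCast_zmod_eq_zero_iff_dvd]
  have n2 : (2 : ZMod p) ≠ 0 := by simpa using two_ne h7 2 (by norm_num) (by norm_num)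
  have h1 : (range p).filter (fun n : ℕ => ∃ j, (p : ℤ) ∣
      F8 ((n : ℤ) - N) (w + 2 * ((n : ℤ) - N)) j) = univ.biUnion (fun j => Rt w N j p) := by
    ext n
    simp only [mem_filter, mem_biUnion, mem_univ, true_and, Rt]
    exact ⟨fun h => h.2.imp fun j hj => ⟨h.1, hj⟩, fun h => ⟨h.choose_spec.1, h.imp fun j hj => hj.2⟩⟩
  rw [h1, card_biUnion]
  · exact sum_congr rfl fun j _ => card_Rt hp h7 hw N j
  · intro j _ l _ hjl
    rw [Function.onFun, disjoint_left]
    intro n h2 h3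
    unfold Rt at h2 h3
    rw [mem_filter] at h2 h3
    have h4 := un_field n2 ((dvd_F8_iff w _ j).1 h2.2) ((dvd_F8_iff w _ l).1 h3.2) hjl
    apply hw'
    have h5 := h4.2
    rw [h4.1] at h5
    simpa using h5

/-- a prime divides at most one value -/
lemma un_int {p : ℕ} (hp : p.Prime) (h7 : 7 < p) {a b : ℤ} (hab : IsCoprime a b) {j l : Fin 7}
    (hj : (p : ℤ) ∣ F8 a b j) (hl : (p : ℤ) ∣ F8 a b l) : j = l := by
  haveI : Fact p.Prime := ⟨hp⟩
  have n2 : (2 : ZMod p) ≠ 0 := by simpa using two_ne h7 2 (by norm_num) (by norm_num)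
  by_contra hjl
  rw [← ZMod.intCast_zmod_eq_zero_iff_dvd, cast_F8] at hj hl
  have h4 := un_field n2 hj hl hjl
  rw [ZMod.intCast_zmod_eq_zero_iff_dvd, ZMod.intCast_zmod_eq_zero_iff_dvd] at h4
  have h5 := hab.isUnit_of_dvd' h4.1 h4.2
  rw [Int.isUnit_iff] at h5
  have := hp.one_lt
  omega

/-- a prime that divides a value does not divide the second coordinate -/
lemma not_dvd_w {p : ℕ} (hp : p.Prime) (h7 : 7 < p) {w a : ℤ} (hab : IsCoprime a (w + 2 * a))
    {j : Fin 7} (hj : (p : ℤ) ∣ F8 a (w + 2 * a) j) : ¬ (p : ℤ) ∣ w := by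
  haveI : Fact p.Prime := ⟨hp⟩
  intro hw
  have n2 : (2 : ZMod p) ≠ 0 := by simpa using two_ne h7 2 (by norm_num) (by norm_num)
  have n3 : (3 : ZMod p) ≠ 0 := by simpa using two_ne h7 3 (by norm_num) (by norm_num)
  have n5 : (5 : ZMod p) ≠ 0 := by simpa using two_ne h7 5 (by norm_num) (by norm_num)
  have n7 : (7 : ZMod p) ≠ 0 := by simpa using two_ne h7 7 (by norm_num) (by norm_num)
  rw [dvd_F8_iff] at hj
  rw [← ZMod.intCast_zmod_eq_zero_iff_dvd] at hw
  rw [hw] at hj
  have ha : (a : ZMod p) = 0 := by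
    generalize (a : ZMod p) = x at hj
    have k2 : ∀ y : ZMod p, y ^ 2 = 0 → y = 0 := fun y hy => (pow_eq_zero_iff two_ne_zero).1 hy
    fin_cases j <;> simp [Fr] at hj
    · exact hj
    · exact hj.resolve_left n2
    · have : -x = 0 := by linear_combination hj
      exact neg_eq_zero.1 this
    · have : 3 * x = 0 := by linear_combination hj
      exact (mul_eq_zero.1 this).resolve_left n3
    · have : 5 * x ^ 2 = 0 := by linear_combination hj
      exact k2 _ ((mul_eq_zero.1 this).resolve_left n5)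
    · have : 7 * x ^ 2 = 0 := by linear_combination -hj
      exact k2 _ ((mul_eq_zero.1 this).resolve_left n7)
    · have : x ^ 2 = 0 := by linear_combination hj
      exact k2 _ this
  rw [ZMod.intCast_zmod_eq_zero_iff_dvd] at ha hw
  have h5 := hab.isUnit_of_dvd' ha (dvd_add hw (ha.mul_left 2))
  rw [Int.isUnit_iff] at h5
  have := hp.one_lt
  omega

end Pool.Agent.Y515.Z8
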