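import Pool.Agent.Y515.Z8.Loc
import Pool.Agent.Helper256.KM.Mertens

/-!
# Project Z8, part CNT: the sum of the numbers of the roots over the primes
-/

set_option autoImplicit false

namespace Pool.Agent.Y515.Z8

open Finset Pool.Agent.W262.RK Pool.Agent.W307.RT Pool.Agent.TH841.PT Pool.Agent.Y723.Z8

/-- the total number of the roots -/
noncomputable def nt (p : ℕ) : ℕ := ∑ j, nr j p

lemma nt_eq {p : ℕ} (hp : p.Prime) (h2 : p ≠ 2) :
    (nt p : ℝ) = 7 + Jr (-1) p + 2 * Jr 2 p := by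
  have hodd : Odd p := hp.odd_of_ne_two h2
  have e1 : Jr (-1) p = if p % 4 = 1 then 1 else -1 := by
    unfold Jr
    rw [jacobiSym.at_neg_one hodd, ZMod.χ₄_nat_eq_if_mod_four]
    have := Nat.odd_iff.1 hodd
    split_ifs with h3 h4 <;> simp <;> omega
  have e2 : Jr 2 p = if p % 8 = 1 ∨ p % 8 = 7 then 1 else -1 := by
    unfold Jr
    rw [jacobiSym.at_two hodd, ZMod.χ₈_nat_eq_if_mod_eight]
    have := Nat.odd_iff.1 hodd
    split_ifs with h3 h4 <;> simp <;> omega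
  have e3 : nt p = 4 + (if p % 4 = 1 then 2 else 0) + 2 * (if p % 8 = 1 ∨ p % 8 = 7 then 2 else 0) := by
    unfold nt nr
    rw [Fin.sum_univ_seven]
    simp
    split_ifs <;> norm_num
  rw [e1, e2, e3]
  push_cast
  split_ifs <;> norm_num

lemma nt_le (p : ℕ) : nt p ≤ 10 := by
  unfold nt nr
  rw [Fin.sum_univ_seven]
  simp
  split_ifs <;> norm_num

/-- Mertens' lower bound -/
lemma mert (z : ℕ) : ∃ C : ℝ, ∀ y : ℕ, 3 ≤ y → z < y →
    Real.log (Real.log y) - C ≤ ∑ p ∈ PS z y, (1 : ℝ) / p := by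
  obtain ⟨C0, hC0⟩ := Pool.Agent.Helper256.KM.mertens_inv
  set S0 : ℝ := ∑ p ∈ (Finset.Icc 1 z).filter Nat.Prime, (1 : ℝ) / p with hS0
  refine ⟨C0 + S0, fun y hy hzy => ?_⟩
  have hm := (abs_le.1 (hC0 y hy)).1
  have hsplit : ∑ p ∈ (Finset.Icc 1 y).filter Nat.Prime, (1 : ℝ) / p =
      S0 + ∑ p ∈ PS z y, (1 : ℝ) / p := by
    rw [hS0, ← sum_union]
    · congr 1
      ext p
      rw [mem_union, mem_filter, mem_filter, mem_Icc, mem_Icc, mem_PS]
      constructor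
      · rintro ⟨⟨h1, h2⟩, h3⟩
        rcases Nat.lt_or_ge z p with h | h
        · exact Or.inr ⟨⟨h, h2⟩, h3⟩
        · exact Or.inl ⟨⟨h1, h⟩, h3⟩
      · rintro (⟨⟨h1, h2⟩, h3⟩ | ⟨⟨h1, h2⟩, h3⟩)
        · exact ⟨⟨h1, by omega⟩, h3⟩
        · exact ⟨⟨by omega, h2⟩, h3⟩
    · rw [disjoint_left]
      intro p hp hp'
      rw [mem_filter, mem_Icc] at hp
      rw [mem_PS] at hp'
      omega
  linarith

/-- the exponential of the sum -/
lemma exp_nt (h : S_CHR) (z : ℕ) (hz : 2 ≤ z) : ∃ C : ℝ, 0 ≤ C ∧ ∀ y : ℕ, 3 ≤ y → z < y →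
    Real.exp (-∑ p ∈ PS z y, (nt p : ℝ) / p) ≤ C / (Real.log y) ^ 7 := by
  obtain ⟨C0, hC0⟩ := mert z
  obtain ⟨C1, hC1⟩ := h (-1) (Or.inl rfl) z
  obtain ⟨C2, hC2⟩ := h 2 (Or.inr (Or.inl rfl)) z
  refine ⟨Real.exp (7 * C0 + C1 + 2 * C2), (Real.exp_pos _).le, fun y hy hzy => ?_⟩
  have hyr : (3 : ℝ) ≤ y := by exact_mod_cast hy
  have hl1 : 1 < Real.log y := by
    rw [Real.lt_log_iff_exp_lt (by linarith)]
    have := Real.exp_one_lt_d9
    linarith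
  have e : ∑ p ∈ PS z y, (nt p : ℝ) / p = 7 * ∑ p ∈ PS z y, (1 : ℝ) / p +
      ∑ p ∈ PS z y, Jr (-1) p / (p : ℝ) + 2 * ∑ p ∈ PS z y, Jr 2 p / (p : ℝ) := by
    rw [mul_sum, mul_sum, ← sum_add_distrib, ← sum_add_distrib]
    refine sum_congr rfl fun p hp => ?_
    have hp' := mem_PS.1 hp
    rw [nt_eq hp'.2 (by omega)]
    ring
  have h0 := hC0 y hy hzy
  have h1 := (abs_le.1 (hC1 y hzy)).1
  have h2 := (abs_le.1 (hC2 y hzy)).1
  have h4 : Real.log y ^ 7 = Real.exp (7 * Real.log (Real.log y)) := by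
    have : (7 : ℝ) * Real.log (Real.log y) = Real.log ((Real.log y) ^ 7) := by
      rw [Real.log_pow]
      norm_num
    rw [this, Real.exp_log (by positivity)]
  rw [h4, ← Real.exp_sub]
  apply Real.exp_le_exp.2
  rw [e]
  linarith

end Pool.Agent.Y515.Z8
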